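import Pool.Agent.Run7.h968.TN.Defs

/-!
# The piece `P_graph` of `Run7.h968.TN` (helper586)
-/

set_option autoImplicit false

namespace Pool.Agent.Run7.h586.TN

open Pool.Agent.Run7.h968.TN

theorem t_graph : P_graph := by
  classical
  intro V E vs es s t hs ht hcard
  let φ : (es → ℚ) →ₗ[ℚ] (vs → ℚ) :=
    { toFun := fun c v => ∑ e : es, c e * ((if t e = v then 1 else 0) - (if s e = v then 1 else 0))
      map_add' := by
        intro a b
        funext v
        simp only [Pi.add_apply, add_mul, Finset.sum_add_distrib]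
      map_smul' := by
        intro r a
        funext v
        simp only [Pi.smul_apply, smul_eq_mul, RingHom.id_apply, Finset.mul_sum, mul_assoc] }
  have hφ : ∀ (c : es → ℚ) (v : vs), φ c v =
      ∑ e : es, c e * ((if t e = v then 1 else 0) - (if s e = v then 1 else 0)) := fun _ _ => rfl
  have hker : LinearMap.ker φ ≠ ⊥ := LinearMap.ker_ne_bot_of_finrank_lt (by
    rw [Module.finrank_fintype_fun_eq_card, Module.finrank_fintype_fun_eq_card, Fintype.card_coe,
      Fintype.card_coe]
    exact hcard)
  obtain ⟨c, hc, hc0⟩ := Submodule.exists_mem_ne_zero_of_ne_bot hker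
  obtain ⟨e0, he0⟩ := Function.ne_iff.1 hc0
  refine ⟨e0, e0.2, ?_⟩
  by_contra hcon
  set r : V → V → Prop := fun a b => ∃ e' ∈ es, e' ≠ (e0 : E) ∧ s e' = a ∧ t e' = b with hr
  let W : V → ℚ := fun v => if Relation.EqvGen r (s e0) v then 1 else 0
  have h1 : ∑ v : vs, W v * φ c v = 0 := by
    rw [LinearMap.mem_ker.1 hc]
    simp
  have hx : ∀ x : V, x ∈ vs → ∑ v : vs, (W v * if x = v then 1 else 0) = W x := by
    intro x hx
    rw [Finset.sum_eq_single (⟨x, hx⟩ : vs)]
    · simp
    · intro v _ hv
      rw [if_neg, mul_zero]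
      intro h
      exact hv (Subtype.ext h.symm)
    · intro h
      exact absurd (Finset.mem_univ _) h
  have h2 : ∑ v : vs, W v * φ c v = ∑ e : es, c e * (W (t e) - W (s e)) := by
    have h3 : ∀ v : vs, W v * φ c v = ∑ e : es, c e * (W v * (if t e = v then 1 else 0) -
        W v * (if s e = v then 1 else 0)) := by
      intro v
      rw [hφ, Finset.mul_sum]
      refine Finset.sum_congr rfl fun e _ => ?_
      ring
    rw [Finset.sum_congr rfl fun v _ => h3 v, Finset.sum_comm]
    refine Finset.sum_congr rfl fun e _ => ?_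
    rw [← Finset.mul_sum, Finset.sum_sub_distrib, hx _ (ht e e.2), hx _ (hs e e.2)]
  have h3 : ∀ e : es, e ≠ e0 → W (t e) = W (s e) := by
    intro e he
    have h4 : r (s e) (t e) := ⟨e, e.2, fun h => he (Subtype.ext h), rfl, rfl⟩
    have h5 : Relation.EqvGen r (s e0) (t e) ↔ Relation.EqvGen r (s e0) (s e) :=
      ⟨fun h => h.trans _ _ _ ((Relation.EqvGen.rel _ _ h4).symm _ _),
        fun h => h.trans _ _ _ (Relation.EqvGen.rel _ _ h4)⟩
    change (if Relation.EqvGen r (s e0) (t e) then (1 : ℚ) else 0) =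
      if Relation.EqvGen r (s e0) (s e) then (1 : ℚ) else 0
    simp only [h5]
  have h4 : ∑ e : es, c e * (W (t e) - W (s e)) = c e0 * (W (t e0) - W (s e0)) := by
    rw [Finset.sum_eq_single e0]
    · intro e _ he
      rw [h3 e he, sub_self, mul_zero]
    · intro h
      exact absurd (Finset.mem_univ _) h
  have h5 : W (t e0) = 0 := if_neg hcon
  have h6 : W (s e0) = 1 := if_pos (Relation.EqvGen.refl _)
  rw [h2, h4, h5, h6] at h1
  apply he0
  have : c e0 = 0 := by linarith
  simpa using this

end Pool.Agent.Run7.h586.TN
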